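import Pool.Agent.H96f76.Mich
import Pool.Agent.H96f76.Schur
import Pool.Agent.H731R2.Riesz

set_option autoImplicit false
set_option linter.unusedSectionVars false

namespace Pool.Agent.Results.MP_f76f53_an.WeakNorm

open MeasureTheory Set Filter Topology Pool.Agent.H96f76
open scoped ENNReal

section Defs

variable {𝕜 : Type} [RCLike 𝕜] {E F : Type} [NormedAddCommGroup E] [NormedSpace 𝕜 E]
  [NormedAddCommGroup F] [NormedSpace 𝕜 F]

/-- A bounded operator is weakly compact if the image of the closed unit ball is relatively weakly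
compact. -/
def WeaklyCompact (W : E →L[𝕜] F) : Prop :=
  IsCompact (closure (toWeakSpace 𝕜 F '' (W '' Metric.closedBall 0 1)))

/-- The weak essential norm. -/
noncomputable def wNorm (T : E →L[𝕜] F) : ℝ :=
  sInf {r | ∃ W : E →L[𝕜] F, WeaklyCompact W ∧ r = ‖T - W‖}

/-- The adjoint `T^* : F^* → E^*`, `T^* f = f ∘ T`. -/
noncomputable def adj (T : E →L[𝕜] F) : StrongDual 𝕜 F →L[𝕜] StrongDual 𝕜 E :=
  (ContinuousLinearMap.compL 𝕜 E F 𝕜).flip T

theorem adj_apply (T : E →L[𝕜] F) (f : StrongDual 𝕜 F) (x : E) : adj T f x = f (T x) := rfl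

theorem weaklyCompact_zero : WeaklyCompact (0 : E →L[𝕜] F) := by
  have h1 : toWeakSpace 𝕜 F '' ((0 : E →L[𝕜] F) '' Metric.closedBall 0 1) ⊆ {0} := by
    rintro _ ⟨_, ⟨x, _, rfl⟩, rfl⟩
    simp
  exact (isCompact_singleton (x := (0 : WeakSpace 𝕜 F))).closure_of_subset h1

theorem weak_limit (W : E →L[𝕜] F) (hW : WeaklyCompact W) (x : ℕ → E) (hx : ∀ n, ‖x n‖ ≤ 1)
    (U : Ultrafilter ℕ) :
    ∃ z : F, ∀ Ψ : StrongDual 𝕜 F, Tendsto (fun n => Ψ (W (x n))) U (𝓝 (Ψ z)) := by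
  have h1 : (U.map fun n => toWeakSpace 𝕜 F (W (x n)) : Filter (WeakSpace 𝕜 F)) ≤
      𝓟 (closure (toWeakSpace 𝕜 F '' (W '' Metric.closedBall 0 1))) := by
    rw [le_principal_iff]
    show ∀ᶠ n in (U : Filter ℕ), _
    filter_upwards with n
    apply subset_closure
    refine ⟨W (x n), ⟨x n, ?_, rfl⟩, rfl⟩
    rw [mem_closedBall_zero_iff]
    exact hx n
  obtain ⟨w, hw, hwlim⟩ := hW.ultrafilter_le_nhds (U.map fun n => toWeakSpace 𝕜 F (W (x n))) h1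
  refine ⟨(toWeakSpace 𝕜 F).symm w, fun Ψ => ?_⟩
  have h2 : Tendsto (fun n => toWeakSpace 𝕜 F (W (x n))) (U : Filter ℕ) (𝓝 w) := hwlim
  have h3 : Continuous fun v : WeakSpace 𝕜 F => Ψ ((toWeakSpace 𝕜 F).symm v) :=
    WeakBilin.eval_continuous (topDualPairing 𝕜 F).flip Ψ
  exact (h3.tendsto w).comp h2

end Defs

section Hilbert

variable {𝕜 : Type} [RCLike 𝕜] {H : Type} [NormedAddCommGroup H] [InnerProductSpace 𝕜 H]
  [CompleteSpace H]

/-- Closed balls of a Hilbert space are weakly compact. -/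
theorem isCompact_weak_closedBall (r : ℝ) :
    IsCompact ((toWeakSpace 𝕜 H) '' Metric.closedBall (0 : H) r) := by
  have hK : IsCompact (WeakDual.toStrongDual ⁻¹' Metric.closedBall (0 : StrongDual 𝕜 H) r) :=
    WeakDual.isCompact_closedBall (𝕜 := 𝕜) (E := H) 0 r
  set g : WeakDual 𝕜 H → WeakSpace 𝕜 H := fun x =>
    toWeakSpace 𝕜 H ((InnerProductSpace.toDual 𝕜 H).symm (WeakDual.toStrongDual x)) with hg
  have hcont : Continuous g := by
    apply WeakBilin.continuous_of_continuous_eval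
    intro l
    have : ∀ x : WeakDual 𝕜 H, ((topDualPairing 𝕜 H).flip (g x)) l =
        (starRingEnd 𝕜) (x ((InnerProductSpace.toDual 𝕜 H).symm l)) := by
      intro x
      have h1 : ((topDualPairing 𝕜 H).flip (g x)) l =
        l ((InnerProductSpace.toDual 𝕜 H).symm (WeakDual.toStrongDual x)) := rfl
      rw [h1]
      conv_lhs => rw [← (InnerProductSpace.toDual 𝕜 H).apply_symm_apply l]
      rw [InnerProductSpace.toDual_apply_apply, ← inner_conj_symm,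
        InnerProductSpace.toDual_symm_apply]
      rfl
    simp only [this]
    exact RCLike.continuous_conj.comp (WeakDual.eval_continuous _)
  have himg : (toWeakSpace 𝕜 H) '' Metric.closedBall (0 : H) r =
      g '' (WeakDual.toStrongDual ⁻¹' Metric.closedBall (0 : StrongDual 𝕜 H) r) := by
    ext y
    constructor
    · rintro ⟨x, hx, rfl⟩
      refine ⟨StrongDual.toWeakDual (InnerProductSpace.toDual 𝕜 H x), ?_, ?_⟩
      · rw [Set.mem_preimage, mem_closedBall_zero_iff]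
        rw [mem_closedBall_zero_iff] at hx
        have : ‖(InnerProductSpace.toDual 𝕜 H x)‖ = ‖x‖ := LinearIsometryEquiv.norm_map _ _
        exact this.trans_le hx
      · have : (InnerProductSpace.toDual 𝕜 H).symm (InnerProductSpace.toDual 𝕜 H x) = x :=
          LinearIsometryEquiv.symm_apply_apply _ _
        exact congrArg (toWeakSpace 𝕜 H) this
    · rintro ⟨x, hx, rfl⟩
      refine ⟨(InnerProductSpace.toDual 𝕜 H).symm (WeakDual.toStrongDual x), ?_, rfl⟩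
      rw [Set.mem_preimage, mem_closedBall_zero_iff] at hx
      rw [mem_closedBall_zero_iff, LinearIsometryEquiv.norm_map]
      exact hx
  rw [himg]
  exact hK.image hcont

/-- Operators which factor through a Hilbert space are weakly compact. -/
theorem weaklyCompact_of_factor {E F : Type} [NormedAddCommGroup E] [NormedSpace 𝕜 E]
    [NormedAddCommGroup F] [NormedSpace 𝕜 F] (S : E →L[𝕜] H) (J : H →L[𝕜] F) (W : E →L[𝕜] F)
    (hW : ∀ x, W x = J (S x)) : WeaklyCompact W := by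
  have h1 : IsCompact ((WeakSpace.map J) '' ((toWeakSpace 𝕜 H) '' Metric.closedBall (0 : H) ‖S‖)) :=
    (isCompact_weak_closedBall _).image (WeakSpace.map J).continuous
  apply h1.closure_of_subset
  rintro _ ⟨_, ⟨x, hx, rfl⟩, rfl⟩
  refine ⟨toWeakSpace 𝕜 H (S x), ⟨S x, ?_, rfl⟩, ?_⟩
  · rw [mem_closedBall_zero_iff] at hx ⊢
    calc ‖S x‖ ≤ ‖S‖ * ‖x‖ := S.le_opNorm x
      _ ≤ ‖S‖ * 1 := by gcongr
      _ = ‖S‖ := mul_one _
  · rw [hW]; rfl

end Hilbert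

section CX

variable {𝕜 : Type} [RCLike 𝕜] {X : Type} [MetricSpace X] [CompactSpace X]

/-- The coercion. -/
noncomputable def ofR (𝕜 : Type) [RCLike 𝕜] (f : C(X, ℝ)) : C(X, 𝕜) :=
  ⟨fun x => (f x : 𝕜), RCLike.continuous_ofReal.comp f.continuous⟩

/-- The real part. -/
noncomputable def reC (F : C(X, 𝕜)) : C(X, ℝ) :=
  ⟨fun x => RCLike.re (F x), RCLike.continuous_re.comp F.continuous⟩

/-- The imaginary part. -/
noncomputable def imC (F : C(X, 𝕜)) : C(X, ℝ) :=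
  ⟨fun x => RCLike.im (F x), RCLike.continuous_im.comp F.continuous⟩

theorem ofR_apply (f : C(X, ℝ)) (x : X) : ofR 𝕜 f x = (f x : 𝕜) := rfl

theorem norm_ofR_le (f : C(X, ℝ)) : ‖ofR 𝕜 f‖ ≤ ‖f‖ := by
  rw [ContinuousMap.norm_le _ (norm_nonneg _)]
  intro x
  rw [ofR_apply, RCLike.norm_ofReal]
  exact f.norm_coe_le_norm x

theorem norm_reC_le (F : C(X, 𝕜)) : ‖reC F‖ ≤ ‖F‖ := by
  rw [ContinuousMap.norm_le _ (norm_nonneg _)]
  intro x
  exact (RCLike.abs_re_le_norm (F x)).trans (F.norm_coe_le_norm x)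

theorem norm_imC_le (F : C(X, 𝕜)) : ‖imC F‖ ≤ ‖F‖ := by
  rw [ContinuousMap.norm_le _ (norm_nonneg _)]
  intro x
  exact (RCLike.abs_im_le_norm (F x)).trans (F.norm_coe_le_norm x)

theorem decomp (F : C(X, 𝕜)) : F = ofR 𝕜 (reC F) + (RCLike.I : 𝕜) • ofR 𝕜 (imC F) := by
  ext x
  rw [ContinuousMap.add_apply, ContinuousMap.smul_apply, smul_eq_mul, ofR_apply, ofR_apply,
    mul_comm]
  exact (RCLike.re_add_im (F x)).symm

theorem ofR_add (f g : C(X, ℝ)) : ofR 𝕜 (f + g) = ofR 𝕜 f + ofR 𝕜 g := by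
  ext x
  simp [ofR_apply]

theorem ofR_smul (c : ℝ) (f : C(X, ℝ)) : ofR 𝕜 (c • f) = (c : 𝕜) • ofR 𝕜 f := by
  ext x
  simp [ofR_apply]

/-- The real part of a functional, as an operator. -/
noncomputable def reF (ψ : StrongDual 𝕜 C(X, 𝕜)) : StrongDual ℝ C(X, ℝ) :=
  LinearMap.mkContinuous
    { toFun := fun f => RCLike.re (ψ (ofR 𝕜 f))
      map_add' := by
        intro f g
        rw [ofR_add, map_add, map_add]
      map_smul' := by
        intro c f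
        rw [ofR_smul, map_smul, smul_eq_mul, RCLike.re_ofReal_mul, RingHom.id_apply, smul_eq_mul] }
    ‖ψ‖ (by
      intro f
      show |RCLike.re (ψ (ofR 𝕜 f))| ≤ _
      refine (RCLike.abs_re_le_norm _).trans ((ψ.le_opNorm _).trans ?_)
      gcongr
      exact norm_ofR_le f)

/-- The imaginary part of a functional, as an operator. -/
noncomputable def imF (ψ : StrongDual 𝕜 C(X, 𝕜)) : StrongDual ℝ C(X, ℝ) :=
  LinearMap.mkContinuous
    { toFun := fun f => RCLike.im (ψ (ofR 𝕜 f))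
      map_add' := by
        intro f g
        rw [ofR_add, map_add, map_add]
      map_smul' := by
        intro c f
        rw [ofR_smul, map_smul, smul_eq_mul, RCLike.im_ofReal_mul, RingHom.id_apply, smul_eq_mul] }
    ‖ψ‖ (by
      intro f
      show |RCLike.im (ψ (ofR 𝕜 f))| ≤ _
      refine (RCLike.abs_im_le_norm _).trans ((ψ.le_opNorm _).trans ?_)
      gcongr
      exact norm_ofR_le f)

theorem reF_apply (ψ : StrongDual 𝕜 C(X, 𝕜)) (f : C(X, ℝ)) :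
    reF ψ f = RCLike.re (ψ (ofR 𝕜 f)) := rfl

theorem imF_apply (ψ : StrongDual 𝕜 C(X, 𝕜)) (f : C(X, ℝ)) :
    imF ψ f = RCLike.im (ψ (ofR 𝕜 f)) := rfl

theorem norm_reF_le (ψ : StrongDual 𝕜 C(X, 𝕜)) : ‖reF ψ‖ ≤ ‖ψ‖ :=
  LinearMap.mkContinuous_norm_le _ (norm_nonneg _) _

theorem norm_imF_le (ψ : StrongDual 𝕜 C(X, 𝕜)) : ‖imF ψ‖ ≤ ‖ψ‖ :=
  LinearMap.mkContinuous_norm_le _ (norm_nonneg _) _

/-- The real part of a functional, as a real linear map. -/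
noncomputable def reLin (𝕜 : Type) [RCLike 𝕜] (X : Type) [MetricSpace X] [CompactSpace X] :
    StrongDual 𝕜 C(X, 𝕜) →ₗ[ℝ] StrongDual ℝ C(X, ℝ) where
  toFun ψ := reF ψ
  map_add' ψ ψ' := by
    ext f
    rw [add_apply, reF_apply, reF_apply, reF_apply, add_apply, map_add]
  map_smul' c ψ := by
    ext f
    rw [smul_apply, reF_apply, reF_apply, smul_apply, RingHom.id_apply, RCLike.smul_re,
      smul_eq_mul]

/-- The imaginary part of a functional, as a real linear map. -/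
noncomputable def imLin (𝕜 : Type) [RCLike 𝕜] (X : Type) [MetricSpace X] [CompactSpace X] :
    StrongDual 𝕜 C(X, 𝕜) →ₗ[ℝ] StrongDual ℝ C(X, ℝ) where
  toFun ψ := imF ψ
  map_add' ψ ψ' := by
    ext f
    rw [add_apply, imF_apply, imF_apply, imF_apply, add_apply, map_add]
  map_smul' c ψ := by
    ext f
    rw [smul_apply, imF_apply, imF_apply, smul_apply, RingHom.id_apply, RCLike.smul_im,
      smul_eq_mul]

/-- The real part of a functional, as a real linear operator. -/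
noncomputable def reL (𝕜 : Type) [RCLike 𝕜] (X : Type) [MetricSpace X] [CompactSpace X] :
    StrongDual 𝕜 C(X, 𝕜) →L[ℝ] StrongDual ℝ C(X, ℝ) :=
  LinearMap.mkContinuous (E := StrongDual 𝕜 C(X, 𝕜)) (F := StrongDual ℝ C(X, ℝ)) (reLin 𝕜 X) 1
    (fun ψ => (norm_reF_le (𝕜 := 𝕜) (X := X) ψ).trans (one_mul ‖ψ‖).ge)

/-- The imaginary part of a functional, as a real linear operator. -/
noncomputable def imL (𝕜 : Type) [RCLike 𝕜] (X : Type) [MetricSpace X] [CompactSpace X] :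
    StrongDual 𝕜 C(X, 𝕜) →L[ℝ] StrongDual ℝ C(X, ℝ) :=
  LinearMap.mkContinuous (E := StrongDual 𝕜 C(X, 𝕜)) (F := StrongDual ℝ C(X, ℝ)) (imLin 𝕜 X) 1
    (fun ψ => (norm_imF_le (𝕜 := 𝕜) (X := X) ψ).trans (one_mul ‖ψ‖).ge)

theorem norm_I_le : ‖(RCLike.I : 𝕜)‖ ≤ 1 := by
  rcases RCLike.I_mul_I_ax (K := 𝕜) with h | h
  · rw [h]; simp
  · have h1 : ‖(RCLike.I : 𝕜)‖ * ‖(RCLike.I : 𝕜)‖ = 1 := by rw [← norm_mul, h]; simp
    nlinarith [norm_nonneg (RCLike.I : 𝕜)]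

/-- The norm of a functional is controlled by the norms of its parts. -/
theorem norm_le_parts (ψ : StrongDual 𝕜 C(X, 𝕜)) {a b : ℝ} (ha0 : 0 ≤ a) (hb0 : 0 ≤ b)
    (ha : ∀ f : C(X, ℝ), |RCLike.re (ψ (ofR 𝕜 f))| ≤ a * ‖f‖)
    (hb : ∀ f : C(X, ℝ), |RCLike.im (ψ (ofR 𝕜 f))| ≤ b * ‖f‖) (F : C(X, 𝕜)) :
    ‖ψ F‖ ≤ (a + b) * ‖F‖ := by
  have hre : ∀ F : C(X, 𝕜), RCLike.re (ψ F) ≤ (a + b) * ‖F‖ := by
    intro F
    have h1 : RCLike.re (ψ F) =
        RCLike.re (ψ (ofR 𝕜 (reC F))) - RCLike.im (RCLike.I : 𝕜) * RCLike.im (ψ (ofR 𝕜 (imC F))) := by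
      conv_lhs => rw [decomp F]
      rw [map_add, map_smul, smul_eq_mul, map_add, RCLike.mul_re, RCLike.I_re]
      ring
    have h2 := ha (reC F)
    have h3 := hb (imC F)
    have h4 : |RCLike.im (RCLike.I : 𝕜)| ≤ 1 := (RCLike.abs_im_le_norm _).trans norm_I_le
    have h5 : a * ‖reC F‖ ≤ a * ‖F‖ := by gcongr; exact norm_reC_le F
    have h6 : b * ‖imC F‖ ≤ b * ‖F‖ := by gcongr; exact norm_imC_le F
    have h7 : |RCLike.im (RCLike.I : 𝕜) * RCLike.im (ψ (ofR 𝕜 (imC F)))| ≤ 1 * (b * ‖F‖) := by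
      rw [abs_mul]
      exact mul_le_mul h4 (h3.trans h6) (abs_nonneg _) zero_le_one
    have h8 := (abs_le.1 h7).1
    have h9 := (le_abs_self _).trans (h2.trans h5)
    rw [h1]
    linarith
  by_cases h0 : ψ F = 0
  · rw [h0, norm_zero]; positivity
  · set θ : 𝕜 := (‖ψ F‖ : 𝕜) / ψ F with hθ
    have hθ1 : ‖θ‖ = 1 := by
      rw [hθ, norm_div, RCLike.norm_ofReal, abs_norm, div_self (norm_ne_zero_iff.2 h0)]
    have hθ2 : ψ (θ • F) = (‖ψ F‖ : 𝕜) := by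
      rw [map_smul, smul_eq_mul, hθ, div_mul_cancel₀ _ h0]
    have h1 := hre (θ • F)
    rw [hθ2, RCLike.ofReal_re, norm_smul, hθ1, one_mul] at h1
    exact h1

/-- The constant `κ`. -/
noncomputable def kap (𝕜 : Type) [RCLike 𝕜] : ℝ := Real.sqrt (1 + ‖(RCLike.I : 𝕜)‖ ^ 2)

/-- The parts of a functional are controlled by its norm. -/
theorem parts_le (ψ : StrongDual 𝕜 C(X, 𝕜)) : ‖reF ψ‖ + ‖imF ψ‖ ≤ kap 𝕜 * ‖ψ‖ := by
  have hκ : 0 ≤ kap 𝕜 := Real.sqrt_nonneg _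
  have key : ∀ f g : C(X, ℝ), ‖f‖ ≤ 1 → ‖g‖ ≤ 1 → reF ψ f + imF ψ g ≤ kap 𝕜 * ‖ψ‖ := by
    intro f g hf hg
    have hfx : ∀ x, |f x| ≤ 1 := fun x => (f.norm_coe_le_norm x).trans hf
    have hgx : ∀ x, |g x| ≤ 1 := fun x => (g.norm_coe_le_norm x).trans hg
    set F : C(X, 𝕜) := ofR 𝕜 f - (RCLike.I : 𝕜) • ofR 𝕜 g with hF
    have h1 : reF ψ f + imF ψ g = RCLike.re (ψ F) := by
      rw [hF, map_sub, map_smul, smul_eq_mul, reF_apply, imF_apply, map_sub, RCLike.mul_re,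
        RCLike.I_re]
      have h2 := RCLike.I_im' (ψ (ofR 𝕜 g))
      rw [h2]
      ring
    have h2 : ‖F‖ ≤ kap 𝕜 := by
      rw [ContinuousMap.norm_le _ hκ]
      intro x
      have h3 : F x = (f x : 𝕜) - RCLike.I * (g x : 𝕜) := rfl
      have h4 : ‖F x‖ ^ 2 ≤ 1 + ‖(RCLike.I : 𝕜)‖ ^ 2 := by
        have hi : ‖(RCLike.I : 𝕜)‖ ^ 2 = RCLike.im (RCLike.I : 𝕜) ^ 2 := by
          rw [← RCLike.normSq_eq_def', RCLike.normSq_apply, RCLike.I_re]; ring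
        rw [hi, ← RCLike.normSq_eq_def', RCLike.normSq_apply, h3]
        simp only [map_sub, RCLike.ofReal_re, RCLike.mul_re, RCLike.I_re, RCLike.ofReal_im,
          RCLike.mul_im]
        have h5 : (f x) ^ 2 ≤ 1 := by
          rw [← sq_abs]; exact pow_le_one₀ (abs_nonneg _) (hfx x)
        have h6 : (g x) ^ 2 ≤ 1 := by
          rw [← sq_abs]; exact pow_le_one₀ (abs_nonneg _) (hgx x)
        nlinarith [sq_nonneg (RCLike.im (RCLike.I : 𝕜))]
      exact Real.le_sqrt_of_sq_le h4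
    rw [h1]
    calc RCLike.re (ψ F) ≤ |RCLike.re (ψ F)| := le_abs_self _
      _ ≤ ‖ψ F‖ := RCLike.abs_re_le_norm _
      _ ≤ ‖ψ‖ * ‖F‖ := ψ.le_opNorm F
      _ ≤ ‖ψ‖ * kap 𝕜 := by gcongr
      _ = _ := mul_comm _ _
  have h1 : ∀ f : C(X, ℝ), ‖f‖ ≤ 1 → reF ψ f ≤ kap 𝕜 * ‖ψ‖ - ‖imF ψ‖ := by
    intro f hf
    have h2 : ‖imF ψ‖ ≤ kap 𝕜 * ‖ψ‖ - reF ψ f := by
      apply norm_le_of_forall
      intro g hg
      have := key f g hf hg
      linarith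
    linarith
  have h2 : ‖reF ψ‖ ≤ kap 𝕜 * ‖ψ‖ - ‖imF ψ‖ := norm_le_of_forall h1
  linarith

/-- The Riesz theorem: a functional is dominated by a measure. -/
theorem exists_dom [MeasurableSpace X] [BorelSpace X] (q : StrongDual ℝ C(X, ℝ)) :
    ∃ ν : Measure X, IsFiniteMeasure ν ∧ ∀ f : C(X, ℝ), |q f| ≤ ∫ x, |f x| ∂ν := by
  let fr : StrongDual ℝ C(X, ℂ) := q.comp (Complex.reCLM.compLeftContinuous ℝ X)
  let Φ : StrongDual ℂ C(X, ℂ) := StrongDual.extendRCLike fr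
  obtain ⟨ν, hν1, -, hν2⟩ := Pool.Agent.H731R2.exists_dominating_measure Φ
  refine ⟨ν, hν1, fun f => ?_⟩
  have h1 : RCLike.re (Φ (ofR ℂ f)) = q f := by
    rw [StrongDual.re_extendRCLike_apply]
    show q _ = q f
    congr 1
  have h2 := hν2 (ofR ℂ f)
  have h3 : ∫ x, ‖(ofR ℂ f) x‖ ∂ν = ∫ x, |f x| ∂ν := by
    congr 1
    ext x
    rw [ofR_apply, RCLike.norm_ofReal]
  rw [h3] at h2
  rw [← h1]
  exact (RCLike.abs_re_le_norm _).trans h2

/-- The real parts of a weakly compact family. -/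
theorem weak_limit_re (z : StrongDual 𝕜 C(X, 𝕜)) (q : ℕ → StrongDual 𝕜 C(X, 𝕜)) (U : Ultrafilter ℕ)
    (h : ∀ Ψ : StrongDual 𝕜 (StrongDual 𝕜 C(X, 𝕜)), Tendsto (fun n => Ψ (q n)) U (𝓝 (Ψ z)))
    (L : StrongDual 𝕜 C(X, 𝕜) →L[ℝ] StrongDual ℝ C(X, ℝ))
    (Φ : StrongDual ℝ (StrongDual ℝ C(X, ℝ))) :
    Tendsto (fun n => Φ (L (q n))) U (𝓝 (Φ (L z))) := by
  have h1 := h (StrongDual.extendRCLike (Φ.comp L))
  have h2 := (RCLike.continuous_re.tendsto _).comp h1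
  have h3 : ∀ p, RCLike.re ((StrongDual.extendRCLike (Φ.comp L)) p : 𝕜) = Φ (L p) := fun p =>
    StrongDual.re_extendRCLike_apply _ _
  rw [h3] at h2
  exact h2.congr fun n => h3 (q n)

end CX

section Main

variable {𝕜 : Type} [RCLike 𝕜] {X Y : Type} [MetricSpace X] [CompactSpace X] [MeasurableSpace X]
  [BorelSpace X] [MetricSpace Y] [CompactSpace Y]

/-- The pairing of two real operators to an operator. -/
noncomputable def pairLin (𝕜 : Type) [RCLike 𝕜] (W₁ W₂ : C(X, ℝ) →L[ℝ] C(Y, ℝ)) :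
    C(X, 𝕜) →ₗ[𝕜] C(Y, 𝕜) where
  toFun F := ofR 𝕜 (W₁ (reC F) - W₂ (imC F)) + (RCLike.I : 𝕜) • ofR 𝕜 (W₂ (reC F) + W₁ (imC F))
  map_add' F G := by
    have h1 : reC (F + G) = reC F + reC G := by
      ext x
      exact map_add (RCLike.re : 𝕜 →+ ℝ) (F x) (G x)
    have h2 : imC (F + G) = imC F + imC G := by
      ext x
      exact map_add (RCLike.im : 𝕜 →+ ℝ) (F x) (G x)
    rw [h1, h2]
    ext y
    simp only [map_add, ContinuousMap.add_apply, ContinuousMap.smul_apply, ofR_apply,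
      ContinuousMap.sub_apply, smul_eq_mul]
    push_cast
    ring
  map_smul' c F := by
    have h1 : reC (c • F) = RCLike.re c • reC F - RCLike.im c • imC F := by
      ext x; exact RCLike.mul_re _ _
    have h2 : imC (c • F) = RCLike.re c • imC F + RCLike.im c • reC F := by
      ext x; exact RCLike.mul_im _ _
    rw [h1, h2]
    ext y
    simp only [map_add, map_sub, map_smul, ContinuousMap.add_apply, ContinuousMap.smul_apply,
      ofR_apply, ContinuousMap.sub_apply, smul_eq_mul, RingHom.id_apply]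
    have h3 := RCLike.I_im' c
    apply RCLike.ext
    · simp only [map_add, map_sub, RCLike.mul_re, RCLike.mul_im, RCLike.ofReal_re,
        RCLike.ofReal_im, RCLike.I_re]
      linear_combination (W₂ (reC F) y + W₁ (imC F) y) * h3
    · simp only [map_add, map_sub, RCLike.mul_re, RCLike.mul_im, RCLike.ofReal_re,
        RCLike.ofReal_im, RCLike.I_re]
      linear_combination (W₁ (reC F) y - W₂ (imC F) y) * h3

theorem pairLin_apply (W₁ W₂ : C(X, ℝ) →L[ℝ] C(Y, ℝ)) (F : C(X, 𝕜)) (y : Y) :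
    pairLin 𝕜 W₁ W₂ F y = ((W₁ (reC F) y - W₂ (imC F) y : ℝ) : 𝕜) +
      RCLike.I * ((W₂ (reC F) y + W₁ (imC F) y : ℝ) : 𝕜) := rfl

theorem pairLin_bound {l : Measure X} [IsFiniteMeasure l] {M : ℝ} (hM : 0 ≤ M)
    {W₁ W₂ : C(X, ℝ) →L[ℝ] C(Y, ℝ)} (h1 : ∀ f y, |W₁ f y| ≤ M * ∫ x, |f x| ∂l)
    (h2 : ∀ f y, |W₂ f y| ≤ M * ∫ x, |f x| ∂l) (F : C(X, 𝕜)) :
    ‖pairLin 𝕜 W₁ W₂ F‖ ≤ 4 * M * ∫ x, ‖F x‖ ∂l := by
  have hF : Integrable (fun x => ‖F x‖) l := by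
    refine Integrable.of_bound F.continuous.norm.aestronglyMeasurable ‖F‖
      (Eventually.of_forall fun x => ?_)
    rw [norm_norm]
    exact F.norm_coe_le_norm x
  have hre : ∫ x, |reC F x| ∂l ≤ ∫ x, ‖F x‖ ∂l :=
    integral_mono (integrable_abs l _) hF fun x => RCLike.abs_re_le_norm (F x)
  have him : ∫ x, |imC F x| ∂l ≤ ∫ x, ‖F x‖ ∂l :=
    integral_mono (integrable_abs l _) hF fun x => RCLike.abs_im_le_norm (F x)
  rw [ContinuousMap.norm_le _ (by positivity)]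
  intro y
  have e1 : |W₁ (reC F) y| ≤ M * ∫ x, ‖F x‖ ∂l := (h1 _ _).trans (by gcongr)
  have e2 : |W₁ (imC F) y| ≤ M * ∫ x, ‖F x‖ ∂l := (h1 _ _).trans (by gcongr)
  have e3 : |W₂ (reC F) y| ≤ M * ∫ x, ‖F x‖ ∂l := (h2 _ _).trans (by gcongr)
  have e4 : |W₂ (imC F) y| ≤ M * ∫ x, ‖F x‖ ∂l := (h2 _ _).trans (by gcongr)
  rw [pairLin_apply]
  have e5 : ‖((W₁ (reC F) y - W₂ (imC F) y : ℝ) : 𝕜)‖ ≤ 2 * (M * ∫ x, ‖F x‖ ∂l) := by
    rw [RCLike.norm_ofReal]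
    have := abs_sub (W₁ (reC F) y) (W₂ (imC F) y)
    linarith
  have e6 : ‖RCLike.I * ((W₂ (reC F) y + W₁ (imC F) y : ℝ) : 𝕜)‖ ≤ 2 * (M * ∫ x, ‖F x‖ ∂l) := by
    rw [norm_mul, RCLike.norm_ofReal]
    have e7 := abs_add_le (W₂ (reC F) y) (W₁ (imC F) y)
    calc ‖(RCLike.I : 𝕜)‖ * |W₂ (reC F) y + W₁ (imC F) y| ≤ 1 * (2 * (M * ∫ x, ‖F x‖ ∂l)) := by
          apply mul_le_mul norm_I_le _ (abs_nonneg _) zero_le_one
          linarith
      _ = _ := one_mul _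
  calc ‖((W₁ (reC F) y - W₂ (imC F) y : ℝ) : 𝕜) +
      RCLike.I * ((W₂ (reC F) y + W₁ (imC F) y : ℝ) : 𝕜)‖
      ≤ ‖((W₁ (reC F) y - W₂ (imC F) y : ℝ) : 𝕜)‖ +
        ‖RCLike.I * ((W₂ (reC F) y + W₁ (imC F) y : ℝ) : 𝕜)‖ := norm_add_le _ _
    _ ≤ 4 * M * ∫ x, ‖F x‖ ∂l := by linarith

/-- Domination by an integral gives weak compactness. -/
theorem weaklyCompact_of_bound {l : Measure X} [IsFiniteMeasure l] {C : ℝ} (hC : 0 ≤ C)
    (W : C(X, 𝕜) →L[𝕜] C(Y, 𝕜)) (hW : ∀ F, ‖W F‖ ≤ C * ∫ x, ‖F x‖ ∂l) : WeaklyCompact W := by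
  set T : C(X, 𝕜) →L[𝕜] Lp 𝕜 2 l := ContinuousMap.toLp (E := 𝕜) 2 l 𝕜 with hT
  have hTd : DenseRange T := ContinuousMap.toLp_denseRange 𝕜 l 𝕜 (by norm_num)
  have hTae : ∀ F : C(X, 𝕜), (T F : X → 𝕜) =ᵐ[l] F := fun F => ContinuousMap.coeFn_toLp l F
  have hint : ∀ F : C(X, 𝕜), ∫ x, ‖F x‖ ∂l ≤ Real.sqrt (l.real univ) * ‖T F‖ := by
    intro F
    have h1 : ∫ x, ‖F x‖ ∂l = ∫ x, ‖T F x‖ ∂l := by
      apply integral_congr_ae
      filter_upwards [hTae F] with x hx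
      rw [hx]
    rw [h1]
    have h2 : MemLp (T F : X → 𝕜) 2 l := Lp.memLp _
    have h3 : (eLpNorm (T F : X → 𝕜) 1 l) ≤ eLpNorm (T F : X → 𝕜) 2 l *
        l univ ^ (1 / (1 : ℝ≥0∞).toReal - 1 / (2 : ℝ≥0∞).toReal) :=
      eLpNorm_le_eLpNorm_mul_rpow_measure_univ (by norm_num) h2.1
    have h4 : ∫ x, ‖T F x‖ ∂l = (eLpNorm (T F : X → 𝕜) 1 l).toReal := by
      rw [eLpNorm_one_eq_lintegral_enorm, integral_norm_eq_lintegral_enorm h2.1]
    rw [h4]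
    have h5 : ‖T F‖ = (eLpNorm (T F : X → 𝕜) 2 l).toReal := Lp.norm_def _
    have h6 : (1 / (1 : ℝ≥0∞).toReal - 1 / (2 : ℝ≥0∞).toReal) = (1 / 2 : ℝ) := by norm_num
    rw [h6] at h3
    have h7 : (eLpNorm (T F : X → 𝕜) 2 l * l univ ^ (1 / 2 : ℝ)) ≠ ⊤ := by
      apply ENNReal.mul_ne_top h2.2.ne
      exact ENNReal.rpow_ne_top_of_nonneg (by norm_num) (measure_ne_top _ _)
    have h8 := ENNReal.toReal_mono h7 h3
    rw [ENNReal.toReal_mul, ← h5, ← ENNReal.toReal_rpow, ← Real.sqrt_eq_rpow] at h8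
    rw [mul_comm]
    exact h8
  have hb : ∀ F : C(X, 𝕜), ‖W.toLinearMap F‖ ≤ (C * Real.sqrt (l.real univ)) * ‖T.toLinearMap F‖ := by
    intro F
    refine (hW F).trans ?_
    rw [mul_assoc]
    gcongr
    exact hint F
  set J : Lp 𝕜 2 l →L[𝕜] C(Y, 𝕜) := W.toLinearMap.extendOfNorm T.toLinearMap with hJ
  have hJT : ∀ F, J (T F) = W F := fun F => LinearMap.extendOfNorm_eq hTd ⟨_, hb⟩ F
  exact weaklyCompact_of_factor T J W fun F => (hJT F).symm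

/-- Almost order boundedness of the parts of a weakly compact family, abstract form. -/
theorem parts_gen {Z V : Type} [NormedAddCommGroup Z] [NormedSpace 𝕜 Z] [NormedAddCommGroup V]
    [NormedSpace 𝕜 V] (W' : V →L[𝕜] Z) (hW' : WeaklyCompact W') (δ : Y → V)
    (hδ : ∀ y, ‖δ y‖ ≤ 1) (L : Z → StrongDual ℝ C(X, ℝ)) (hL : ∀ z, ‖L z‖ ≤ ‖z‖)
    (hlim : ∀ (z : Z) (q : ℕ → Z) (U : Ultrafilter ℕ),
      (∀ Ψ : StrongDual 𝕜 Z, Tendsto (fun n => Ψ (q n)) U (𝓝 (Ψ z))) →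
      ∀ Φ : StrongDual ℝ (StrongDual ℝ C(X, ℝ)), Tendsto (fun n => Φ (L (q n))) U (𝓝 (Φ (L z))))
    {η : ℝ} (hη : 0 < η) :
    ∃ (l : Measure X) (M : ℝ), IsFiniteMeasure l ∧ 0 ≤ M ∧ ∀ (y : Y) (f : C(X, ℝ)),
      |L (W' (δ y)) f| ≤ M * ∫ x, |f x| ∂l + η * ‖f‖ := by
  choose ν hν1 hν2 using fun y : Y => exists_dom (L (W' (δ y)))
  have hb : ∀ y : Y, ‖L (W' (δ y))‖ ≤ ‖W'‖ := by
    intro y
    refine (hL _).trans ((W'.le_opNorm _).trans ?_)
    calc ‖W'‖ * ‖δ y‖ ≤ ‖W'‖ * 1 := by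
          gcongr
          exact hδ y
      _ = ‖W'‖ := mul_one _
  obtain ⟨S, M, hM, hS⟩ := almost_order_bounded
    (fun y : Y => L (W' (δ y))) ν hν2 (C := ‖W'‖) hb (by
      intro s U
      obtain ⟨z, hz⟩ := weak_limit W' hW' (fun n => δ (s n)) (fun n => hδ (s n)) U
      exact ⟨L z, hlim z (fun n => W' (δ (s n))) U hz⟩) hη
  refine ⟨∑ j ∈ S, ν j, M, inferInstance, hM, fun y f => ?_⟩
  have h1 : ∫ x, |f x| ∂(∑ j ∈ S, ν j) = ∑ j ∈ S, ∫ x, |f x| ∂(ν j) :=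
    integral_finsetSum_measure fun j _ => integrable_abs (ν j) f
  rw [h1]
  exact hS y f

theorem norm_eval_le (y : Y) : ‖(ContinuousMap.evalCLM 𝕜 y : StrongDual 𝕜 C(Y, 𝕜))‖ ≤ 1 := by
  apply ContinuousLinearMap.opNorm_le_bound _ zero_le_one
  intro F
  rw [one_mul]
  exact F.norm_coe_le_norm y

/-- Almost order boundedness of the parts of a weakly compact family. -/
theorem parts_bounded (W' : StrongDual 𝕜 C(Y, 𝕜) →L[𝕜] StrongDual 𝕜 C(X, 𝕜))
    (hW' : WeaklyCompact (𝕜 := 𝕜) (E := StrongDual 𝕜 C(Y, 𝕜)) (F := StrongDual 𝕜 C(X, 𝕜)) W')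
    (L : StrongDual 𝕜 C(X, 𝕜) →L[ℝ] StrongDual ℝ C(X, ℝ))
    (hL : ∀ ψ, ‖L ψ‖ ≤ ‖ψ‖) {η : ℝ} (hη : 0 < η) :
    ∃ (l : Measure X) (M : ℝ), IsFiniteMeasure l ∧ 0 ≤ M ∧ ∀ (y : Y) (f : C(X, ℝ)),
      |L (W' (ContinuousMap.evalCLM 𝕜 y)) f| ≤ M * ∫ x, |f x| ∂l + η * ‖f‖ := by
  have h1 : ∀ (z : StrongDual 𝕜 C(X, 𝕜)) (q : ℕ → StrongDual 𝕜 C(X, 𝕜)) (U : Ultrafilter ℕ),
      (∀ Ψ : StrongDual 𝕜 (StrongDual 𝕜 C(X, 𝕜)), Tendsto (fun n => Ψ (q n)) U (𝓝 (Ψ z))) →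
      ∀ Φ : StrongDual ℝ (StrongDual ℝ C(X, ℝ)),
        Tendsto (fun n => Φ (L (q n))) U (𝓝 (Φ (L z))) := by
    intro z q U h Φ
    exact weak_limit_re z q U h L Φ
  have h2 : ∀ y : Y, ‖(ContinuousMap.evalCLM 𝕜 y : StrongDual 𝕜 C(Y, 𝕜))‖ ≤ 1 := norm_eval_le
  have h3 : ∀ (z : StrongDual 𝕜 C(X, 𝕜)), ‖L z‖ ≤ ‖z‖ := hL
  let W2 : (StrongDual 𝕜 C(Y, 𝕜)) →L[𝕜] (StrongDual 𝕜 C(X, 𝕜)) := W'
  have h4 := @parts_gen 𝕜 inferInstance X Y inferInstance inferInstance inferInstance inferInstance inferInstance inferInstance (StrongDual 𝕜 C(X, 𝕜)) (StrongDual 𝕜 C(Y, 𝕜)) inferInstance inferInstance inferInstance inferInstance W2 hW' (fun y => ContinuousMap.evalCLM 𝕜 y) h2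
  have h5 := h4 (fun ψ => L ψ) h3
  have h6 := h5 h1 hη
  exact h6

/-- The main construction. -/
theorem main_construction (T : C(X, 𝕜) →L[𝕜] C(Y, 𝕜))
    (W' : StrongDual 𝕜 C(Y, 𝕜) →L[𝕜] StrongDual 𝕜 C(X, 𝕜)) (hW' : WeaklyCompact (𝕜 := 𝕜) (E := StrongDual 𝕜 C(Y, 𝕜)) (F := StrongDual 𝕜 C(X, 𝕜)) W') {η : ℝ}
    (hη : 0 < η) : ∃ W : C(X, 𝕜) →L[𝕜] C(Y, 𝕜), WeaklyCompact W ∧
      ‖T - W‖ ≤ 2 * (kap 𝕜 * ‖adj T - W'‖) + 6 * η := by
  obtain ⟨l₁, M₁, hl₁, hM₁, h₁⟩ := parts_bounded W' hW' (reL 𝕜 X)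
    (fun ψ => norm_reF_le (𝕜 := 𝕜) (X := X) ψ) hη
  obtain ⟨l₂, M₂, hl₂, hM₂, h₂⟩ := parts_bounded W' hW' (imL 𝕜 X)
    (fun ψ => norm_imF_le (𝕜 := 𝕜) (X := X) ψ) hη
  set l : Measure X := l₁ + l₂ with hl
  set M : ℝ := max M₁ M₂ with hM
  have hM0 : 0 ≤ M := hM₁.trans (le_max_left _ _)
  have hint : ∀ f : C(X, ℝ), ∫ x, |f x| ∂l = (∫ x, |f x| ∂l₁) + ∫ x, |f x| ∂l₂ := fun f =>
    integral_add_measure (integrable_abs l₁ f) (integrable_abs l₂ f)
  set δ : Y → StrongDual 𝕜 C(Y, 𝕜) := fun y => ContinuousMap.evalCLM 𝕜 y with hδ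
  have hδ1 : ∀ y : Y, ‖δ y‖ ≤ 1 := by
    intro y
    apply ContinuousLinearMap.opNorm_le_bound _ zero_le_one
    intro F
    rw [one_mul]
    exact F.norm_coe_le_norm y
  set q : Y → StrongDual 𝕜 C(X, 𝕜) := fun y => W' (δ y) with hq
  set φ : Y → StrongDual 𝕜 C(X, 𝕜) := fun y => adj T (δ y) with hφ
  have hφapp : ∀ y F, φ y F = T F y := fun y F => rfl
  have hφq : ∀ y, ‖φ y - q y‖ ≤ ‖adj T - W'‖ := by
    intro y
    have h1 : φ y - q y = (adj T - W') (δ y) := rfl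
    rw [h1]
    calc ‖(adj T - W') (δ y)‖ ≤ ‖adj T - W'‖ * ‖δ y‖ := (adj T - W').le_opNorm _
      _ ≤ ‖adj T - W'‖ * 1 := by gcongr; exact hδ1 y
      _ = _ := mul_one _
  have hb₁ : ∀ y (f : C(X, ℝ)), |reF (q y) f| ≤ M * ∫ x, |f x| ∂l + η * ‖f‖ := by
    intro y f
    refine (h₁ y f).trans ?_
    have e1 : 0 ≤ ∫ x, |f x| ∂l₂ := by positivity
    have e2 : M₁ * ∫ x, |f x| ∂l₁ ≤ M * ∫ x, |f x| ∂l := by
      rw [hint]
      apply mul_le_mul (le_max_left _ _) (by linarith) (by positivity) hM0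
    linarith
  have hb₂ : ∀ y (f : C(X, ℝ)), |imF (q y) f| ≤ M * ∫ x, |f x| ∂l + η * ‖f‖ := by
    intro y f
    refine (h₂ y f).trans ?_
    have e1 : 0 ≤ ∫ x, |f x| ∂l₁ := by positivity
    have e2 : M₂ * ∫ x, |f x| ∂l₂ ≤ M * ∫ x, |f x| ∂l := by
      rw [hint]
      apply mul_le_mul (le_max_right _ _) (by linarith) (by positivity) hM0
    linarith
  have hgen : ∀ (a b : StrongDual ℝ C(X, ℝ)),
      (∀ f : C(X, ℝ), |b f| ≤ M * ∫ x, |f x| ∂l + η * ‖f‖) → dd l M a ≤ ‖a - b‖ + η := by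
    intro a b hb
    apply dd_le (by positivity)
    intro f
    have e1 : a f = (a - b) f + b f := by rw [sub_apply]; ring
    have e2 := (le_abs_self _).trans (hb f)
    have e3 : (a - b) f ≤ ‖a - b‖ * ‖f‖ := (le_abs_self _).trans ((a - b).le_opNorm f)
    rw [e1]
    linarith
  have hd₁ : ∀ y, dd l M (reF (φ y)) ≤ ‖reF (φ y - q y)‖ + η := by
    intro y
    have e1 : reF (φ y - q y) = reF (φ y) - reF (q y) := by
      ext f
      rw [reF_apply, sub_apply, sub_apply, map_sub, reF_apply, reF_apply]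
    rw [e1]
    exact hgen _ _ (hb₁ y)
  have hd₂ : ∀ y, dd l M (imF (φ y)) ≤ ‖imF (φ y - q y)‖ + η := by
    intro y
    have e1 : imF (φ y - q y) = imF (φ y) - imF (q y) := by
      ext f
      rw [imF_apply, sub_apply, sub_apply, map_sub, imF_apply, imF_apply]
    rw [e1]
    exact hgen _ _ (hb₂ y)
  obtain ⟨W₁, hW₁a, hW₁b⟩ := selection (l := l) hM0 hη (fun y => reF (φ y)) (by
    intro f
    exact RCLike.continuous_re.comp (T (ofR 𝕜 f)).continuous)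
  obtain ⟨W₂, hW₂a, hW₂b⟩ := selection (l := l) hM0 hη (fun y => imF (φ y)) (by
    intro f
    exact RCLike.continuous_im.comp (T (ofR 𝕜 f)).continuous)
  have hWb := pairLin_bound (𝕜 := 𝕜) hM0 hW₁a hW₂a
  set W : C(X, 𝕜) →L[𝕜] C(Y, 𝕜) := (pairLin 𝕜 W₁ W₂).mkContinuous (4 * M * l.real univ) (by
    intro F
    refine (hWb F).trans ?_
    rw [mul_assoc (4 * M)]
    gcongr
    calc ∫ x, ‖F x‖ ∂l ≤ ∫ _, ‖F‖ ∂l := by
          apply integral_mono _ (integrable_const _)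
          · intro x; exact F.norm_coe_le_norm x
          · refine Integrable.of_bound F.continuous.norm.aestronglyMeasurable ‖F‖
              (Eventually.of_forall fun x => ?_)
            rw [norm_norm]
            exact F.norm_coe_le_norm x
      _ = l.real univ * ‖F‖ := by rw [integral_const, smul_eq_mul]) with hW
  have hWapp : ∀ F y, W F y = ((W₁ (reC F) y - W₂ (imC F) y : ℝ) : 𝕜) +
      RCLike.I * ((W₂ (reC F) y + W₁ (imC F) y : ℝ) : 𝕜) := fun F y => rfl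
  refine ⟨W, weaklyCompact_of_bound (l := l) (C := 4 * M) (by positivity) W hWb, ?_⟩
  apply ContinuousLinearMap.opNorm_le_bound
  · have : 0 ≤ kap 𝕜 := Real.sqrt_nonneg _
    positivity
  intro F
  have hκ : 0 ≤ kap 𝕜 := Real.sqrt_nonneg _
  rw [ContinuousMap.norm_le _ (by positivity)]
  intro y
  have hreR : ∀ f : C(X, ℝ), reC (ofR 𝕜 f) = f := by
    intro f; ext x; exact RCLike.ofReal_re _
  have himR : ∀ f : C(X, ℝ), imC (ofR 𝕜 f) = 0 := by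
    intro f; ext x; exact RCLike.ofReal_im _
  have hWR : ∀ f : C(X, ℝ), W (ofR 𝕜 f) y = ((W₁ f y : ℝ) : 𝕜) + RCLike.I * ((W₂ f y : ℝ) : 𝕜) := by
    intro f
    rw [hWapp, hreR, himR, map_zero, map_zero, ContinuousMap.zero_apply, sub_zero, add_zero]
  have hd1 := dd_nonneg (l := l) hM0 (reF (φ y))
  have hd2 := dd_nonneg (l := l) hM0 (imF (φ y))
  have key := norm_le_parts (φ y - (δ y).comp W) (a := 2 * dd l M (reF (φ y)) + η)
    (b := 2 * dd l M (imF (φ y)) + η) (by positivity) (by positivity) (by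
      intro f
      have e1 : RCLike.re ((φ y - (δ y).comp W) (ofR 𝕜 f)) = reF (φ y) f - W₁ f y := by
        have e2 : (φ y - (δ y).comp W) (ofR 𝕜 f) = φ y (ofR 𝕜 f) - W (ofR 𝕜 f) y := rfl
        rw [e2, hWR, map_sub, map_add, RCLike.ofReal_re, RCLike.mul_re, RCLike.I_re,
          RCLike.ofReal_im, reF_apply]
        ring
      rw [e1]
      exact hW₁b y f) (by
      intro f
      have e1 : RCLike.im ((φ y - (δ y).comp W) (ofR 𝕜 f)) =
          RCLike.im (RCLike.I : 𝕜) * (imF (φ y) f - W₂ f y) := by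
        have e2 : (φ y - (δ y).comp W) (ofR 𝕜 f) = φ y (ofR 𝕜 f) - W (ofR 𝕜 f) y := rfl
        rw [e2, hWR, map_sub, map_add, RCLike.ofReal_im, RCLike.mul_im, RCLike.I_re,
          RCLike.ofReal_re, imF_apply, mul_sub, RCLike.I_im']
        ring
      rw [e1, abs_mul]
      have e3 : |RCLike.im (RCLike.I : 𝕜)| ≤ 1 := (RCLike.abs_im_le_norm _).trans norm_I_le
      calc |RCLike.im (RCLike.I : 𝕜)| * |imF (φ y) f - W₂ f y| ≤ 1 * |imF (φ y) f - W₂ f y| := by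
            gcongr
        _ = |imF (φ y) f - W₂ f y| := one_mul _
        _ ≤ _ := hW₂b y f) F
  have e1 : (T - W) F y = (φ y - (δ y).comp W) F := rfl
  rw [e1]
  refine key.trans ?_
  have e2 := parts_le (φ y - q y)
  have e3 : kap 𝕜 * ‖φ y - q y‖ ≤ kap 𝕜 * ‖adj T - W'‖ := by
    gcongr
    exact hφq y
  have e4 := hd₁ y
  have e5 := hd₂ y
  have e6 : (2 * dd l M (reF (φ y)) + η) + (2 * dd l M (imF (φ y)) + η) ≤
      2 * (kap 𝕜 * ‖adj T - W'‖) + 6 * η := by linarith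
  exact mul_le_mul_of_nonneg_right e6 (norm_nonneg _)

theorem wNorm_le_of (T : C(X, 𝕜) →L[𝕜] C(Y, 𝕜)) : wNorm T ≤ 2 * kap 𝕜 * wNorm (adj T) := by
  have hκ : 0 < kap 𝕜 := Real.sqrt_pos.2 (by positivity)
  have h1 : ∀ W' : StrongDual 𝕜 C(Y, 𝕜) →L[𝕜] StrongDual 𝕜 C(X, 𝕜),
      WeaklyCompact (𝕜 := 𝕜) (E := StrongDual 𝕜 C(Y, 𝕜)) (F := StrongDual 𝕜 C(X, 𝕜)) W' →
      wNorm T ≤ 2 * kap 𝕜 * ‖adj T - W'‖ := by
    intro W' hW'
    have h2 : ∀ η : ℝ, 0 < η → wNorm T ≤ 2 * kap 𝕜 * ‖adj T - W'‖ + 6 * η := by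
      intro η hη
      obtain ⟨W, hW1, hW2⟩ := main_construction T W' hW' hη
      have h3 : wNorm T ≤ ‖T - W‖ := by
        apply csInf_le
        · refine ⟨0, ?_⟩
          rintro r ⟨W, -, rfl⟩
          exact norm_nonneg _
        · exact ⟨W, hW1, rfl⟩
      linarith
    have h5 : Tendsto (fun η : ℝ => 2 * kap 𝕜 * ‖adj T - W'‖ + 6 * η) (𝓝[>] 0)
        (𝓝 (2 * kap 𝕜 * ‖adj T - W'‖ + 6 * 0)) :=
      ((continuous_const.add (continuous_const.mul continuous_id)).tendsto 0).mono_left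
        nhdsWithin_le_nhds
    rw [mul_zero, add_zero] at h5
    exact ge_of_tendsto h5 (by
      filter_upwards [self_mem_nhdsWithin] with κ hκ
      exact h2 κ hκ)
  have h2 : wNorm T / (2 * kap 𝕜) ≤ wNorm (adj T) := by
    apply le_csInf
    · exact ⟨_, 0, weaklyCompact_zero, rfl⟩
    · rintro r ⟨W', hW', rfl⟩
      rw [div_le_iff₀ (by positivity)]
      have := h1 W' hW'
      linarith
  rw [div_le_iff₀ (by positivity)] at h2
  linarith

end Main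

theorem kap_real : kap ℝ = 1 := by
  unfold kap
  simp

theorem kap_complex : kap ℂ = Real.sqrt 2 := by
  unfold kap
  simp
  norm_num

/-- **Theorem.** For the operators on `C[0,1]` the weak essential norm of the adjoint is equivalent
to the weak essential norm, with the constant `1 / 2` for real scalars and `1 / (2 √2)` for complex
scalars. -/
theorem result :
    (∀ T : C(unitInterval, ℝ) →L[ℝ] C(unitInterval, ℝ), (1 / 2) * wNorm T ≤ wNorm (adj T)) ∧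
    (∀ T : C(unitInterval, ℂ) →L[ℂ] C(unitInterval, ℂ),
      (1 / (2 * Real.sqrt 2)) * wNorm T ≤ wNorm (adj T)) := by
  constructor
  · intro T
    have h := wNorm_le_of T
    rw [kap_real] at h
    linarith
  · intro T
    have h := wNorm_le_of T
    rw [kap_complex] at h
    have h2 : (0 : ℝ) < Real.sqrt 2 := Real.sqrt_pos.2 (by norm_num)
    rw [one_div_mul_eq_div, div_le_iff₀ (by positivity)]
    linarith

end Pool.Agent.Results.MP_f76f53_an.WeakNorm
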